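import Pool.Agent.Helper87.MD.Goals

/-!
# Packet MD-LAT: the lattice lemma
-/

set_option autoImplicit false

open Finset
open scoped Classical

namespace Pool.Agent.Helper18.MD

open Pool.Agent.Helper98.Lang Pool.Agent.Helper87.MD

/-- A set with gaps `≥ w` and diameter `≤ D`. -/
theorem spacing (B : Finset ℕ) (w : ℕ) (D : ℝ) (hw : 1 ≤ w) (hD0 : 0 ≤ D)
    (hB : ∀ x ∈ B, ∀ y ∈ B, x < y → w ≤ y - x)
    (hD : ∀ x ∈ B, ∀ y ∈ B, x < y → ((y - x : ℕ) : ℝ) ≤ D) :
    (B.card : ℝ) ≤ 1 + D / w := by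
  have hw0 : (0 : ℝ) < w := by exact_mod_cast hw
  rcases B.eq_empty_or_nonempty with rfl | hne
  · simp only [card_empty, Nat.cast_zero]
    positivity
  set m := B.min' hne with hm
  have hmB : m ∈ B := B.min'_mem hne
  have hle : ∀ x ∈ B, m ≤ x := fun x hx => B.min'_le x hx
  have h1 : B.card ≤ (range (⌊D / w⌋₊ + 1)).card := by
    refine card_le_card_of_injOn (fun x => (x - m) / w) ?_ ?_
    · intro x hx
      have hx' : x ∈ B := hx
      rw [coe_range, Set.mem_Iio]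
      have h2 : (x - m) / w ≤ ⌊D / w⌋₊ := by
        rw [Nat.le_floor_iff (by positivity), le_div_iff₀ hw0]
        have h3 : (((x - m) / w * w : ℕ) : ℝ) ≤ ((x - m : ℕ) : ℝ) := by
          exact_mod_cast Nat.div_mul_le_self _ _
        rw [Nat.cast_mul] at h3
        refine h3.trans ?_
        rcases (hle x hx').eq_or_lt with h4 | h4
        · rw [h4, Nat.sub_self, Nat.cast_zero]; exact hD0
        · exact hD m hmB x hx' h4
      exact Nat.lt_succ_of_le h2
    · intro x hx y hy hxy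
      have hx' : x ∈ B := hx
      have hy' : y ∈ B := hy
      have hxy' : (x - m) / w = (y - m) / w := hxy
      have hmx := hle x hx'
      have hmy := hle y hy'
      have d1 := Nat.div_add_mod (x - m) w
      have d2 := Nat.div_add_mod (y - m) w
      have d3 := Nat.mod_lt (x - m) (show w > 0 by omega)
      have d4 := Nat.mod_lt (y - m) (show w > 0 by omega)
      rw [hxy'] at d1
      rcases lt_trichotomy x y with h | h | h
      · have := hB x hx' y hy' h
        omega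
      · exact h
      · have := hB y hy' x hx' h
        omega
  rw [card_range] at h1
  have h2 : ((⌊D / w⌋₊ : ℕ) : ℝ) ≤ D / w := Nat.floor_le (by positivity)
  have h3 : (B.card : ℝ) ≤ ((⌊D / w⌋₊ + 1 : ℕ) : ℝ) := by exact_mod_cast h1
  push_cast at h3
  linarith

theorem lat : LatStmt := by
  intro ξ hR δ hδ
  obtain ⟨c, hc, hroth⟩ := hR δ hδ
  refine ⟨8 + (Real.sqrt (1 / c) + Real.sqrt (2 / c)), by positivity, ?_⟩
  intro s X η hs hX hη
  have hs0 : (0 : ℝ) < s := by exact_mod_cast hs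
  have hX0 : (0 : ℝ) < X := by exact_mod_cast hX
  set T : ℝ := η * ((s : ℝ) * X) ^ (1 + δ) with hT
  have hT0 : 0 < T := by positivity
  have hTs : T ^ ((1 : ℝ) / 2) = Real.sqrt T := (Real.sqrt_eq_rpow T).symm
  rw [hTs]
  set A := (Icc 1 X).filter (fun x : ℕ => nd ((x : ℝ) * (s * ξ)) ≤ η) with hA
  have memA : ∀ x, x ∈ A ↔ (1 ≤ x ∧ x ≤ X) ∧ nd ((x : ℝ) * (s * ξ)) ≤ η := by
    intro x
    rw [hA, mem_filter, mem_Icc]
  rcases A.eq_empty_or_nonempty with hAe | ⟨x0, hx0⟩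
  · rw [hAe, card_empty, Nat.cast_zero]
    positivity
  have roth : ∀ u : ℕ, 1 ≤ u → c * ((u : ℝ) * s) ^ (-(1 + δ)) ≤ nd ((u : ℝ) * (s * ξ)) := by
    intro u hu
    have h := hroth (u * s) (Nat.mul_pos hu hs)
    push_cast at h
    rwa [mul_assoc (u : ℝ) (s : ℝ) ξ] at h
  -- `c ≤ T`
  have hcT : c ≤ T := by
    obtain ⟨⟨h1, h2⟩, h3⟩ := (memA x0).1 hx0
    have hx00 : (0 : ℝ) < x0 := by exact_mod_cast h1
    have h4 := (roth x0 h1).trans h3
    have hp : (0 : ℝ) < ((x0 : ℝ) * s) ^ (1 + δ) := by positivity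
    rw [Real.rpow_neg (by positivity)] at h4
    have h5 : c ≤ η * ((x0 : ℝ) * s) ^ (1 + δ) := by
      rw [← div_eq_mul_inv, div_le_iff₀ hp] at h4
      exact h4
    refine h5.trans (mul_le_mul_of_nonneg_left ?_ hη.le)
    refine Real.rpow_le_rpow (by positivity) ?_ (by linarith)
    rw [mul_comm]
    exact mul_le_mul_of_nonneg_left (by exact_mod_cast h2) hs0.le
  have h1T : 1 ≤ Real.sqrt (1 / c) * Real.sqrt T := by
    rw [← Real.sqrt_mul (by positivity), Real.one_le_sqrt, one_div, inv_mul_eq_div,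
      le_div_iff₀ hc]
    linarith
  -- the least step
  have hex : ∃ w : ℕ, 1 ≤ w ∧ nd ((w : ℝ) * (s * ξ)) ≤ 2 * η := by
    obtain ⟨⟨h1, _⟩, h3⟩ := (memA x0).1 hx0
    exact ⟨x0, h1, by linarith⟩
  set w := Nat.find hex with hwdef
  have hw1 : 1 ≤ w := (Nat.find_spec hex).1
  have hw2 : nd ((w : ℝ) * (s * ξ)) ≤ 2 * η := (Nat.find_spec hex).2
  have hwmin : ∀ u : ℕ, 1 ≤ u → nd ((u : ℝ) * (s * ξ)) ≤ 2 * η → w ≤ u := fun u h1 h2 =>
    Nat.find_min' hex ⟨h1, h2⟩
  have hwX : w ≤ X := by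
    obtain ⟨⟨h1, h2⟩, h3⟩ := (memA x0).1 hx0
    exact (hwmin x0 h1 (by linarith)).trans h2
  have hw0 : (0 : ℝ) < w := by exact_mod_cast hw1
  set ρ := nd ((w : ℝ) * (s * ξ)) with hρ
  have hρ0 : 0 < ρ := lt_of_lt_of_le (by positivity) (roth w hw1)
  -- differences
  have diff : ∀ x ∈ A, ∀ y ∈ A, x < y → ∃ z : ℤ, |((y - x : ℕ) : ℝ) * (s * ξ) - z| ≤ 2 * η := by
    intro x hx y hy hxy
    refine ⟨round ((y : ℝ) * (s * ξ)) - round ((x : ℝ) * (s * ξ)), ?_⟩
    have h1 := ((memA x).1 hx).2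
    have h2 := ((memA y).1 hy).2
    unfold nd at h1 h2
    rw [Nat.cast_sub hxy.le]
    push_cast
    have h3 : ((y : ℝ) - x) * (s * ξ) - ((round ((y : ℝ) * (s * ξ)) : ℝ) -
        (round ((x : ℝ) * (s * ξ)) : ℝ)) = ((y : ℝ) * (s * ξ) - round ((y : ℝ) * (s * ξ))) -
        ((x : ℝ) * (s * ξ) - round ((x : ℝ) * (s * ξ))) := by ring
    rw [h3]
    refine (abs_sub _ _).trans ?_
    linarith
  have gap : ∀ x ∈ A, ∀ y ∈ A, x < y → w ≤ y - x := by
    intro x hx y hy hxy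
    obtain ⟨z, hz⟩ := diff x hx y hy hxy
    refine hwmin _ (by omega) ?_
    exact (round_le _ z).trans hz
  have hspread : ∀ x ∈ A, ∀ y ∈ A, x < y → ((y - x : ℕ) : ℝ) ≤ X := by
    intro x hx y hy hxy
    have h1 := ((memA y).1 hy).1.2
    have h2 : y - x ≤ X := by omega
    exact_mod_cast h2
  by_cases hcase : 1 ≤ 4 * η * w
  · -- large step
    have h1 := spacing A w X hw1 hX0.le gap hspread
    have h2 : (X : ℝ) / w ≤ 4 * η * X := by
      rw [div_le_iff₀ hw0]
      nlinarith [mul_le_mul_of_nonneg_right hcase hX0.le]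
    have h3 : 0 ≤ Real.sqrt (2 / c) * Real.sqrt T := by positivity
    have h4 : 0 ≤ (Real.sqrt (1 / c) + Real.sqrt (2 / c)) * (η * X) := by positivity
    have h5 : 0 ≤ η * X := by positivity
    have h6 : 0 ≤ Real.sqrt T := Real.sqrt_nonneg _
    nlinarith
  push Not at hcase
  -- blocks
  set ℓ : ℕ := ⌊1 / (2 * ρ)⌋₊ + 1 with hℓ
  have hℓ1 : ((ℓ : ℝ) - 1) * ρ ≤ 1 / 2 := by
    have h1 : ((⌊1 / (2 * ρ)⌋₊ : ℕ) : ℝ) ≤ 1 / (2 * ρ) := Nat.floor_le (by positivity)
    have h2 : (ℓ : ℝ) - 1 = ((⌊1 / (2 * ρ)⌋₊ : ℕ) : ℝ) := by rw [hℓ]; push_cast; ring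
    rw [h2]
    calc ((⌊1 / (2 * ρ)⌋₊ : ℕ) : ℝ) * ρ ≤ 1 / (2 * ρ) * ρ :=
          mul_le_mul_of_nonneg_right h1 hρ0.le
      _ = 1 / 2 := by field_simp
  have hℓ2 : 1 / (2 * ρ) ≤ ℓ := by
    have h1 := Nat.lt_floor_add_one (1 / (2 * ρ))
    rw [hℓ]; push_cast; exact h1.le
  have hℓ0 : 0 < ℓ := Nat.succ_pos _
  have hℓ0' : (0 : ℝ) < ℓ := by exact_mod_cast hℓ0
  set m : ℝ := min (2 * η / ρ) (X / w) with hm
  have hm0 : 0 ≤ m := le_min (by positivity) (by positivity)
  -- one block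
  have block : ∀ j : ℕ, ((A.filter (fun x => x / ℓ = j)).card : ℝ) ≤ 1 + m := by
    intro j
    have hsub : ∀ x ∈ A.filter (fun x => x / ℓ = j), x ∈ A := fun x hx => (mem_filter.1 hx).1
    have hgapj : ∀ x ∈ A.filter (fun x => x / ℓ = j), ∀ y ∈ A.filter (fun x => x / ℓ = j),
        x < y → w ≤ y - x := fun x hx y hy h => gap x (hsub x hx) y (hsub y hy) h
    have h1 := spacing (A.filter (fun x => x / ℓ = j)) w X hw1 hX0.le hgapj
      (fun x hx y hy h => hspread x (hsub x hx) y (hsub y hy) h)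
    have h2 := spacing (A.filter (fun x => x / ℓ = j)) w (2 * η * w / ρ) hw1 (by positivity) hgapj
      (by
        intro x hx y hy hxy
        have hx1 := (mem_filter.1 hx).2
        have hy1 := (mem_filter.1 hy).2
        obtain ⟨z, hz⟩ := diff x (hsub x hx) y (hsub y hy) hxy
        set u : ℕ := y - x with hu
        have hu1 : (u : ℝ) ≤ (ℓ : ℝ) - 1 := by
          have d1 := Nat.div_add_mod x ℓ
          have d2 := Nat.div_add_mod y ℓ
          have d4 := Nat.mod_lt y hℓ0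
          rw [hx1] at d1
          rw [hy1] at d2
          have h5 : u + 1 ≤ ℓ := by omega
          have h6 : ((u + 1 : ℕ) : ℝ) ≤ (ℓ : ℝ) := by exact_mod_cast h5
          push_cast at h6
          linarith
        have hu0 : (0 : ℝ) ≤ u := Nat.cast_nonneg _
        -- the determinant
        set W : ℤ := round ((w : ℝ) * (s * ξ)) with hW
        have hρW : |(w : ℝ) * (s * ξ) - W| = ρ := rfl
        have hdet : ((w : ℝ) * ((u : ℝ) * (s * ξ) - z) - u * ((w : ℝ) * (s * ξ) - W)) =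
            (((u : ℤ) * W - (w : ℤ) * z : ℤ) : ℝ) := by
          push_cast; ring
        have hlt : |(((u : ℤ) * W - (w : ℤ) * z : ℤ) : ℝ)| < 1 := by
          rw [← hdet]
          refine (abs_sub _ _).trans_lt ?_
          rw [abs_mul, abs_mul, hρW, abs_of_pos hw0, abs_of_nonneg hu0]
          have h5 : (w : ℝ) * |(u : ℝ) * (s * ξ) - z| ≤ w * (2 * η) :=
            mul_le_mul_of_nonneg_left hz hw0.le
          have h6 : (u : ℝ) * ρ ≤ 1 / 2 := (mul_le_mul_of_nonneg_right hu1 hρ0.le).trans hℓ1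
          linarith
        have hz0 : ((u : ℤ) * W - (w : ℤ) * z : ℤ) = 0 := by
          have : |((u : ℤ) * W - (w : ℤ) * z : ℤ)| < 1 := by exact_mod_cast hlt
          rwa [Int.abs_lt_one_iff] at this
        rw [hz0, Int.cast_zero, sub_eq_zero] at hdet
        have h7 : (u : ℝ) * ρ ≤ w * (2 * η) := by
          have h8 := congrArg abs hdet
          rw [abs_mul, abs_mul, hρW, abs_of_pos hw0, abs_of_nonneg hu0] at h8
          rw [← h8]
          exact mul_le_mul_of_nonneg_left hz hw0.le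
        rw [le_div_iff₀ hρ0]
        linarith)
    have h3 : 2 * η * w / ρ / w = 2 * η / ρ := by field_simp
    rw [h3] at h2
    have h4 : 1 + m = min (1 + 2 * η / ρ) (1 + X / w) := by
      rw [hm, min_add_add_left]
    rw [h4]
    exact le_min h2 h1
  -- the number of blocks
  have hcount : (A.card : ℝ) ≤ (X / ℓ + 1 : ℝ) * (1 + m) := by
    have h1 : A.card = ∑ j ∈ range (X / ℓ + 1), (A.filter (fun x => x / ℓ = j)).card := by
      refine card_eq_sum_card_fiberwise (fun x hx => ?_)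
      have hx' : x ∈ A := hx
      rw [coe_range, Set.mem_Iio]
      exact Nat.lt_succ_of_le (Nat.div_le_div_right ((memA x).1 hx').1.2)
    rw [h1]
    push_cast
    have h2 : ∑ j ∈ range (X / ℓ + 1), ((A.filter (fun x => x / ℓ = j)).card : ℝ) ≤
        ∑ _j ∈ range (X / ℓ + 1), (1 + m) := sum_le_sum fun j _ => block j
    refine h2.trans ?_
    rw [sum_const, card_range, nsmul_eq_mul]
    refine mul_le_mul_of_nonneg_right ?_ (by linarith)
    push_cast
    have := @Nat.cast_div_le ℝ _ _ _ X ℓ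
    linarith
  have hXl : (X : ℝ) / ℓ ≤ 2 * ρ * X := by
    rw [div_le_iff₀ hℓ0']
    have h1 : 1 ≤ 2 * ρ * ℓ := by
      rw [div_le_iff₀ (by positivity)] at hℓ2
      linarith
    nlinarith [mul_le_mul_of_nonneg_right h1 hX0.le]
  -- `m ≤ sqrt (2 T / c)`
  have hmT : m ≤ Real.sqrt (2 / c) * Real.sqrt T := by
    rw [← Real.sqrt_mul (by positivity)]
    apply Real.le_sqrt_of_sq_le
    have h1 : m ^ 2 ≤ (2 * η / ρ) * (X / w) := by
      rw [sq]
      exact mul_le_mul (min_le_left _ _) (min_le_right _ _) hm0 (by positivity)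
    refine h1.trans ?_
    have h2 := roth w hw1
    rw [Real.rpow_neg (by positivity), ← div_eq_mul_inv, div_le_iff₀ (by positivity)] at h2
    -- `c ≤ ρ (w s)^(1+δ)`
    have h3 : ((w : ℝ) * s) ^ (1 + δ) ≤ w * ((X : ℝ) ^ δ * (s : ℝ) ^ (1 + δ)) := by
      rw [Real.mul_rpow hw0.le hs0.le, Real.rpow_add hw0, Real.rpow_one, mul_assoc]
      refine mul_le_mul_of_nonneg_left ?_ hw0.le
      refine mul_le_mul_of_nonneg_right ?_ (by positivity)
      exact Real.rpow_le_rpow hw0.le (by exact_mod_cast hwX) hδ.le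
    have h4 : c ≤ ρ * (w * ((X : ℝ) ^ δ * (s : ℝ) ^ (1 + δ))) :=
      h2.trans (mul_le_mul_of_nonneg_left h3 hρ0.le)
    have h5 : ((s : ℝ) * X) ^ (1 + δ) = X * ((X : ℝ) ^ δ * (s : ℝ) ^ (1 + δ)) := by
      rw [Real.mul_rpow hs0.le hX0.le, Real.rpow_add hX0, Real.rpow_one]
      ring
    have e1 : (2 * η / ρ) * (X / w) = 2 * η * X / (ρ * w) := by
      field_simp
    have e2 : 2 / c * T = 2 * T / c := by ring
    rw [e1, e2, div_le_div_iff₀ (by positivity) hc, hT, h5]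
    have h6 : 0 < 2 * η * X := by positivity
    calc 2 * η * X * c ≤ 2 * η * X * (ρ * (w * ((X : ℝ) ^ δ * (s : ℝ) ^ (1 + δ)))) :=
          mul_le_mul_of_nonneg_left h4 h6.le
      _ = 2 * (η * (X * ((X : ℝ) ^ δ * (s : ℝ) ^ (1 + δ)))) * (ρ * w) := by ring
  -- the end
  have h1 : (A.card : ℝ) ≤ (2 * ρ * X + 1) * (1 + m) :=
    hcount.trans (mul_le_mul_of_nonneg_right (by linarith) (by linarith))
  have h2 : 2 * ρ * X * m ≤ 4 * η * X := by
    have h3 : m ≤ 2 * η / ρ := min_le_left _ _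
    calc 2 * ρ * X * m ≤ 2 * ρ * X * (2 * η / ρ) :=
          mul_le_mul_of_nonneg_left h3 (by positivity)
      _ = 4 * η * X := by field_simp; ring
  have h3 : 2 * ρ * X ≤ 4 * η * X := by nlinarith
  have h4 : 0 ≤ (Real.sqrt (1 / c) + Real.sqrt (2 / c)) * (η * X) := by positivity
  have h6 : 0 ≤ Real.sqrt T := Real.sqrt_nonneg _
  nlinarith

end Pool.Agent.Helper18.MD
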